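import Pool.Agent.H31.CF.U3
import Pool.Agent.H31.CN.UnfB

/-!
# Complete family, part U: the two forms of the unfolded second moment (UNB)
-/

set_option autoImplicit false

open MeasureTheory Set Filter
open scoped Real Matrix MatrixGroups

namespace Pool.Agent.H20.CFU

open Pool.Agent.H31.CN Pool.Agent.H91.CF Pool.Agent.H31.CF

theorem rd_facts (f : ℕ) (hf : 1 ≤ f) : Squarefree (rd f) ∧ (rd f).primeFactors = f.primeFactors ∧
    rd f * f1 f = f ∧ 1 ≤ rd f ∧ 1 ≤ f1 f := by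
  have h1 : (rd f).primeFactors = f.primeFactors := Nat.primeFactors_prod_primeFactors f
  have hsq : Squarefree (rd f) := by
    unfold rd
    refine Finset.squarefree_prod_of_pairwise_isCoprime ?_ ?_
    · intro p hp q hq hpq
      have hp' := Nat.prime_of_mem_primeFactors hp
      have hq' := Nat.prime_of_mem_primeFactors hq
      exact Nat.coprime_iff_isRelPrime.1 ((Nat.coprime_primes hp' hq').2 hpq)
    · intro p hp
      exact (Nat.prime_of_mem_primeFactors hp).prime.squarefree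
  have hrf : rd f ∣ f := Nat.prod_primeFactors_dvd f
  have h3 : rd f * f1 f = f := Nat.mul_div_cancel' hrf
  have h4 : rd f ≠ 0 := hsq.ne_zero
  have h5 : f1 f ≠ 0 := by
    intro h
    rw [h, mul_zero] at h3
    omega
  exact ⟨hsq, h1, h3, by omega, by omega⟩

theorem nrt_le (q : ℕ) (A B C : ℤ) : nrt q A B C ≤ q := by
  unfold nrt
  exact (Finset.card_filter_le _ _).trans (Finset.card_range q).le

theorem Nw_le (m₁ m₂ : ℕ) : ∃ M : ℕ, ∀ (A : ℕ) (B C : ℤ) (e : ℕ), Nw m₁ m₂ A B C e ≤ M := by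
  refine ⟨∏ p ∈ (m₁ * m₂).primeFactors, (1 + p + p + p ^ 2), fun A B C e => ?_⟩
  unfold Nw
  refine Finset.prod_le_prod' fun p _ => ?_
  have h1 := nrt_le p A B C
  have h2 := nrt_le p ((A / p : ℕ) : ℤ) B (p * C)
  have h3 := nrt_le (p ^ 2) A B C
  by_cases h : p ∣ m₁ ∧ p ∣ m₂
  · rw [if_pos h]
    unfold N2
    split_ifs <;> omega
  · rw [if_neg h]
    unfold N1
    split_ifs <;> omega

/-- the weight on the right side -/
noncomputable def wR (f n m₁ m₂ Δ : ℕ) (Q : QF) (e : ℕ) : ℝ :=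
  Vk ((e : ℝ) ^ 2 * Q.1 / ((n : ℝ) * m₁ * m₂ * Real.sqrt Δ)) /
    Real.sqrt ((e : ℝ) ^ 2 * Q.1) * (if Nat.Coprime (e * Q.1.toNat) f then 1 else 0) *
      Nw m₁ m₂ Q.1.toNat Q.2.1 Q.2.2 e

theorem wR_bound (hVK : T_VK) (f n m₁ m₂ Δ : ℕ) (hn : 1 ≤ n) (h1 : 1 ≤ m₁) (h2 : 1 ≤ m₂)
    (hΔ : 0 < Δ) : ∃ K c : ℝ, 0 < c ∧ ∀ Q ∈ FD Δ, ∀ e,
      |wR f n m₁ m₂ Δ Q e| ≤ K * Real.exp (-(c * ((e : ℝ) ^ 2 * Q.1))) := by
  obtain ⟨C, hC, hV, -⟩ := hVK
  obtain ⟨M, hM⟩ := Nw_le m₁ m₂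
  have hn' : (0 : ℝ) < n := by exact_mod_cast hn
  have h1' : (0 : ℝ) < m₁ := by exact_mod_cast h1
  have h2' : (0 : ℝ) < m₂ := by exact_mod_cast h2
  have hΔ' : (0 : ℝ) < Δ := by exact_mod_cast hΔ
  set Y : ℝ := (n : ℝ) * m₁ * m₂ * Real.sqrt Δ with hY
  have hY0 : 0 < Y := by positivity
  refine ⟨C * M, 6 / Y, by positivity, fun Q hQ e => ?_⟩
  have hA : (1 : ℝ) ≤ Q.1 := by
    have : 0 < Q.1 := hQ.1
    exact_mod_cast this
  have hM' : ((Nw m₁ m₂ Q.1.toNat Q.2.1 Q.2.2 e : ℕ) : ℝ) ≤ M := by exact_mod_cast hM _ _ _ _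
  have hw : |(if Nat.Coprime (e * Q.1.toNat) f then (1 : ℝ) else 0)| ≤ 1 := by
    split_ifs
    · rw [abs_one]
    · rw [abs_zero]; exact zero_le_one
  rcases Nat.eq_zero_or_pos e with rfl | he
  · have : wR f n m₁ m₂ Δ Q 0 = 0 := by
      unfold wR
      simp
    rw [this, abs_zero]
    positivity
  · have he1 : (1 : ℝ) ≤ e := by exact_mod_cast he
    have hx : 1 ≤ (e : ℝ) ^ 2 * Q.1 := by
      have : (1 : ℝ) ≤ (e : ℝ) ^ 2 := one_le_pow₀ he1
      nlinarith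
    have hs : 1 ≤ Real.sqrt ((e : ℝ) ^ 2 * Q.1) := by
      rw [Real.one_le_sqrt]
      exact hx
    unfold wR
    rw [abs_mul, abs_mul, abs_div, abs_of_nonneg (Real.sqrt_nonneg _), Nat.abs_cast]
    have hv := hV ((e : ℝ) ^ 2 * Q.1 / Y) (by positivity)
    have e1 : 6 * ((e : ℝ) ^ 2 * Q.1 / Y) = 6 / Y * ((e : ℝ) ^ 2 * Q.1) := by ring
    rw [e1] at hv
    have h3 : |Vk ((e : ℝ) ^ 2 * Q.1 / Y)| / Real.sqrt ((e : ℝ) ^ 2 * Q.1) ≤
        C * Real.exp (-(6 / Y * ((e : ℝ) ^ 2 * Q.1))) := by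
      refine (div_le_self (abs_nonneg _) hs).trans hv
    calc _ ≤ C * Real.exp (-(6 / Y * ((e : ℝ) ^ 2 * Q.1))) * 1 * M := by
          refine mul_le_mul (mul_le_mul h3 hw (abs_nonneg _) (by positivity)) hM'
            (Nat.cast_nonneg _) (by positivity)
      _ = C * M * Real.exp (-(6 / Y * ((e : ℝ) ^ 2 * Q.1))) := by ring

theorem Fgd_bound (hCFI : T_CFI) (g d Δ : ℕ) (hg : Squarefree g) (hd : d ∣ g) (hΔ : 0 < Δ) :
    ∃ (K : ℝ) (k : ℕ), ∀ Q ∈ FD Δ, |Fgd g d Δ Q| ≤ K * (1 + (Q.1 : ℝ)) ^ k := by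
  obtain ⟨K, k, h⟩ := hCFI.2 g d Δ hg hd hΔ
  refine ⟨K, k, fun Q hQ => ?_⟩
  have hA : 0 < Q.1 := hQ.1
  have h1 := h Q.1.toNat Q.2.1 Q.2.2 (by omega)
  have e1 : ((Q.1.toNat : ℕ) : ℤ) = Q.1 := Int.toNat_of_nonneg hA.le
  have e2 : ((Q.1.toNat : ℕ) : ℝ) = (Q.1 : ℝ) := by exact_mod_cast congrArg (fun z : ℤ => (z : ℝ)) e1
  rw [e1, e2] at h1
  exact h1

theorem pf_UNB (hFF1 : T_FF1) (hLVL : T_LVL) (hNWS : T_NWS) (hCFI : T_CFI) (hNPQ : T_NPQ)
    (hVK : T_VK) : T_UNB := by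
  classical
  intro m₁ m₂ f D hf hD hD4 hm₁ hm₂ hmf₁ hmf₂
  obtain ⟨hsq, hpf, hrf, hr1, hf1⟩ := rd_facts f hf
  have hm₁' : 1 ≤ m₁ := Nat.one_le_iff_ne_zero.2 hm₁.ne_zero
  have hm₂' : 1 ≤ m₂ := Nat.one_le_iff_ne_zero.2 hm₂.ne_zero
  set g := rd f with hg
  set u := f1 f with hu
  have hΔ : 0 < u ^ 2 * D := by positivity
  have huf : u ∣ f := ⟨g, by rw [mul_comm]; exact hrf.symm⟩
  have hgf : g ∣ f := ⟨u, hrf.symm⟩
  -- the two sides as sums over the pairs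
  have hU : U0 m₁ m₂ f D = ∑' p, UT D (wU f m₁ m₂ (f * Real.sqrt D)) (F1 f) p := rfl
  have hS : ∀ d, USg g d g m₁ m₂ (fun e A _ _ => if Nat.Coprime (e * A) f then 1 else 0)
      (u ^ 2 * D) = ∑' p, UT (u ^ 2 * D) (wR f g m₁ m₂ (u ^ 2 * D))
        (Fgd g d ((u ^ 2 * D : ℕ) : ℝ)) p := by
    intro d
    unfold USg
    rw [US_tsum]
    rfl
  have hsum : ∀ d ∈ g.divisors, Summable (UT (u ^ 2 * D) (wR f g m₁ m₂ (u ^ 2 * D))
      (Fgd g d ((u ^ 2 * D : ℕ) : ℝ))) := by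
    intro d hd
    obtain ⟨K, c, hc, h1⟩ := wR_bound hVK f g m₁ m₂ (u ^ 2 * D) hr1 hm₁' hm₂' hΔ
    obtain ⟨K', k, h2⟩ := Fgd_bound hCFI g d (u ^ 2 * D) hsq (Nat.dvd_of_mem_divisors hd) hΔ
    refine US_summable hc (fun Q hQ => ?_) h1 h2
    unfold wR
    simp
  unfold Uff
  rw [← hg, ← hu]
  simp_rw [hS]
  rw [hU]
  simp_rw [← tsum_mul_left]
  rw [← Summable.tsum_finsetSum (fun d hd => (hsum d hd).mul_left _)]
  refine tsum_congr fun p => ?_
  obtain ⟨e, A⟩ := p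
  unfold UT
  simp only
  rcases Nat.eq_zero_or_pos A with rfl | hA
  · simp
  -- the case of a common divisor
  by_cases hcop : Nat.Coprime (e * A) f
  swap
  · have h1 : ∀ B : ℕ, wU f m₁ m₂ (f * Real.sqrt D) (qf3 D A B) e = 0 := by
      intro B
      unfold wU qf3
      simp only [Int.toNat_natCast]
      rw [if_neg hcop]
    have h2 : ∀ B : ℕ, wR f g m₁ m₂ (u ^ 2 * D) (qf3 (u ^ 2 * D) A B) e = 0 := by
      intro B
      unfold wR qf3
      simp only [Int.toNat_natCast]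
      rw [if_neg hcop]
      ring
    simp_rw [h1, h2]
    simp
  have hAf : Nat.Coprime A f := Nat.Coprime.coprime_dvd_left (Dvd.intro_left e rfl) hcop
  have hAu : Nat.Coprime A u := Nat.Coprime.coprime_dvd_right huf hAf
  have hmm : Nat.Coprime (m₁ * m₂) (1 * u) := by
    rw [one_mul]
    exact Nat.Coprime.coprime_dvd_right huf (Nat.Coprime.mul_left hmf₁ hmf₂)
  have hD' : (0 : ℝ) < D := by exact_mod_cast hD
  have hu' : (0 : ℝ) < u := by exact_mod_cast hf1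
  -- the common factor
  set V : ℝ := Vk ((e : ℝ) ^ 2 * (A : ℝ) / ((m₁ : ℝ) * m₂ * (f * Real.sqrt D))) /
    Real.sqrt ((e : ℝ) ^ 2 * A) with hV
  have hV' : Vk ((e : ℝ) ^ 2 * (A : ℝ) / ((g : ℝ) * m₁ * m₂ * Real.sqrt ((u ^ 2 * D : ℕ) : ℝ))) /
      Real.sqrt ((e : ℝ) ^ 2 * A) = V := by
    rw [hV]
    congr 2
    have e1 : Real.sqrt ((u ^ 2 * D : ℕ) : ℝ) = u * Real.sqrt D := by
      push_cast
      rw [Real.sqrt_mul (by positivity), Real.sqrt_sq hu'.le]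
    have e2 : (f : ℝ) = g * u := by exact_mod_cast hrf.symm
    rw [e1, e2]
    congr 1
    ring
  set H : ℤ → ℤ → ℝ := fun B C => V * (Nw m₁ m₂ A B C e : ℝ) * ∑ d ∈ g.divisors,
    cf g d A B C * Fgd g d ((u ^ 2 * D : ℕ) : ℝ) ((A : ℤ), B, C) with hH
  have hHinv : ∀ B C : ℤ, H (B + 2 * A) (A + B + C) = H B C := by
    intro B C
    have h1 := (hNWS m₁ m₂ A e B C hA).2 1
    have e1 : B + 2 * (A : ℤ) * 1 = B + 2 * A := by ring
    have e2 : C + B * 1 + (A : ℤ) * 1 ^ 2 = A + B + C := by ring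
    rw [e1, e2] at h1
    simp only [hH]
    rw [h1]
    congr 1
    refine Finset.sum_congr rfl fun d hd => ?_
    obtain ⟨h2, h3⟩ := hCFI.1 g d A B C ((u ^ 2 * D : ℕ) : ℝ) hsq (Nat.dvd_of_mem_divisors hd) hA
      (by exact_mod_cast hΔ)
    rw [h2, h3]
  have hL := hLVL A u D H hA hf1 hAu hD4 hHinv
  -- the left side
  have hleft : ∀ B ∈ (Finset.range (2 * A)).filter (fun B => 4 * A ∣ B ^ 2 + D),
      wU f m₁ m₂ (f * Real.sqrt D) (qf3 D A B) e * F1 f (qf3 D A B) =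
        H ((u : ℤ) * B) ((u : ℤ) ^ 2 * (((B ^ 2 + D) / (4 * A) : ℕ) : ℤ)) := by
    intro B hB
    obtain ⟨-, hdv⟩ := mem_rng hB
    have hQ := qf3_mem hA hdv
    have hgc : Int.gcd (qf3 D A B).1 f = 1 := by
      show Int.gcd (A : ℤ) (f : ℤ) = 1
      rw [Int.gcd_natCast_natCast]
      exact hAf
    rw [hFF1 f D (qf3 D A B) hf hD hQ hgc]
    have h1 := ((hNWS m₁ m₂ A e (B : ℤ) (((B ^ 2 + D) / (4 * A) : ℕ) : ℤ) hA).1 1 u le_rfl hf1
      hmm).1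
    have e1 : 1 ^ 2 * A = A := by ring
    have e2 : ((1 : ℕ) : ℤ) * (u : ℤ) * (B : ℤ) = u * B := by push_cast; ring
    rw [e1, e2] at h1
    simp only [hH]
    have hw : wU f m₁ m₂ (f * Real.sqrt D) (qf3 D A B) e = V * (Nw m₁ m₂ A ((u : ℤ) * B)
        ((u : ℤ) ^ 2 * (((B ^ 2 + D) / (4 * A) : ℕ) : ℤ)) e : ℝ) := by
      unfold wU qf3
      simp only [Int.toNat_natCast]
      rw [if_pos hcop, h1]
      simp only [hV, Int.cast_natCast]
    rw [hw]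
    congr 1
    refine Finset.sum_congr rfl fun d _ => ?_
    have e3 : ((u ^ 2 * D : ℕ) : ℝ) = (u : ℝ) ^ 2 * D := by push_cast; ring
    rw [e3]
    rfl
  rw [Finset.sum_congr rfl hleft, hL]
  -- the right side
  have hright : ∀ B ∈ (Finset.range (2 * A)).filter (fun B => 4 * A ∣ B ^ 2 + u ^ 2 * D),
      H B (((B ^ 2 + u ^ 2 * D) / (4 * A) : ℕ) : ℤ) =
        ∑ d ∈ g.divisors, cfd f d D * (wR f g m₁ m₂ (u ^ 2 * D) (qf3 (u ^ 2 * D) A B) e *
          Fgd g d ((u ^ 2 * D : ℕ) : ℝ) (qf3 (u ^ 2 * D) A B)) := by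
    intro B hB
    obtain ⟨-, hdv⟩ := mem_rng hB
    set C : ℤ := (((B ^ 2 + u ^ 2 * D) / (4 * A) : ℕ) : ℤ) with hC
    have h4 : 4 * (A : ℤ) * C - (B : ℤ) ^ 2 = (u : ℤ) ^ 2 * D := by
      have := (qf3_mem hA hdv).2
      unfold qf3 dsc at this
      simp only at this
      rw [← hC] at this
      push_cast at this
      exact this
    have hw : wR f g m₁ m₂ (u ^ 2 * D) (qf3 (u ^ 2 * D) A B) e = V * (Nw m₁ m₂ A B C e : ℝ) := by
      unfold wR qf3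
      simp only [Int.toNat_natCast]
      rw [if_pos hcop, mul_one, ← hC]
      simp only [Int.cast_natCast]
      rw [hV']
    have hcf : ∀ d ∈ g.divisors, cf g d A B C = cfd f d D := by
      intro d hd
      have hdg : d ∣ g := Nat.dvd_of_mem_divisors hd
      have hnp : ∀ p, p.Prime → p ∣ g → (np p A B C : ℝ) = (npD f p D : ℝ) := by
        intro p hp hpg
        have hpf' : p ∣ f := hpg.trans hgf
        have hpA : ¬ (p : ℤ) ∣ (A : ℤ) := by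
          intro h
          have h5 : p ∣ A := by exact_mod_cast h
          have h6 := Nat.dvd_gcd h5 hpf'
          rw [hAf] at h6
          exact hp.one_lt.ne' (Nat.dvd_one.1 h6)
        have h7 := (hNPQ f p hf hp hpf').2 D A B C hD4 hpA h4
        rw [h7]
        simp
      unfold cf cfd
      rw [← hg]
      congr 1
      · refine Finset.prod_congr rfl fun p hp => ?_
        rw [Nat.mem_primeFactors] at hp
        rw [hnp p hp.1 (hp.2.1.trans hdg)]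
      · refine Finset.prod_congr rfl fun p hp => ?_
        rw [Nat.mem_primeFactors] at hp
        rw [hnp p hp.1 (hp.2.1.trans (Nat.div_dvd_of_dvd hdg))]
    simp only [hH]
    rw [Finset.mul_sum]
    refine Finset.sum_congr rfl fun d hd => ?_
    rw [hw, hcf d hd]
    have e5 : qf3 (u ^ 2 * D) A B = ((A : ℤ), (B : ℤ), C) := rfl
    rw [e5]
    ring
  rw [Finset.sum_congr rfl hright, Finset.sum_comm]
  refine Finset.sum_congr rfl fun d _ => ?_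
  rw [Finset.mul_sum]

end Pool.Agent.H20.CFU
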