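import Pool.Agent.H31.CF.U4
import Pool.Agent.H31.CF.U3
import Pool.Agent.H31.CN.UnfB

/-!
# Complete family, part U: the unfolded sum of level `g = d s` (USL)
-/

set_option autoImplicit false

open MeasureTheory Set Filter
open scoped Real Matrix MatrixGroups

namespace Pool.Agent.H20.CFU

open Pool.Agent.H31.CN Pool.Agent.H91.CF Pool.Agent.H31.CF

theorem pf_USL (hSL1 : T_SL1) (hSL2 : T_SL2) (hNWS : T_NWS) (hQDV : T_QDV) : T_USL := by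
  classical
  intro q d s n m₁ m₂ Δ K w hd hs hsn hn hw hm₁ hm₂ hcop hΔ
  have hd' : (0 : ℝ) < d := by exact_mod_cast hd
  have hs' : (0 : ℝ) < s := by exact_mod_cast hs
  set Δ' : ℕ := (d * s) ^ 2 * Δ with hΔ'
  -- the two sides as sums over the pairs
  set ωL : QF → ℕ → ℝ := fun Q e => Vk ((e : ℝ) ^ 2 * Q.1 /
        (((d * (n / s) : ℕ) : ℝ) * m₁ * m₂ * Real.sqrt ((Δ' : ℕ) : ℝ))) /
        Real.sqrt ((e : ℝ) ^ 2 * Q.1) * ws d s w e Q.1.toNat Q.2.1 Q.2.2 *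
        Nw m₁ m₂ Q.1.toNat Q.2.1 Q.2.2 e with hωL
  set FL : QF → ℝ := fun Q => zf Q.1 Q.2.1 ((Δ' : ℕ) : ℝ) with hFL
  set ωR : QF → ℕ → ℝ := fun Q e => Vk ((e : ℝ) ^ 2 * Q.1 / ((n : ℝ) * m₁ * m₂ * Real.sqrt Δ)) /
    Real.sqrt ((e : ℝ) ^ 2 * Q.1) * w e Q.1.toNat Q.2.1 Q.2.2 *
      Nw m₁ m₂ Q.1.toNat Q.2.1 Q.2.2 e with hωR
  have hR : USg (d * s) d n m₁ m₂ w Δ = ∑' p, UT Δ ωR (Fgd (d * s) d Δ) p := rfl
  rw [hR, US_tsum, ← tsum_mul_left]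
  -- only the multiples of `d ^ 2` contribute on the left
  have hinj : Function.Injective (fun p : ℕ × ℕ => (p.1, d ^ 2 * p.2)) := by
    rintro ⟨a, b⟩ ⟨a', b'⟩ h
    simp only [Prod.mk.injEq] at h
    have h2 : b = b' := Nat.eq_of_mul_eq_mul_left (by positivity) h.2
    rw [h.1, h2]
  have hsupp : Function.support (fun p => (d : ℝ) * UT Δ' ωL FL p) ⊆
      Set.range (fun p : ℕ × ℕ => (p.1, d ^ 2 * p.2)) := by
    rintro ⟨e, A⟩ hp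
    by_contra hno
    apply hp
    have hnd : ¬ d ^ 2 ∣ A := by
      rintro ⟨A', hA'⟩
      exact hno ⟨(e, A'), by simp [hA']⟩
    simp only
    rw [mul_eq_zero]
    right
    unfold UT
    refine Finset.sum_eq_zero fun B _ => ?_
    have : ωL (qf3 Δ' A B) e = 0 := by
      simp only [hωL, qf3, Int.toNat_natCast, ws]
      rw [if_neg hnd]
      ring
    rw [this, zero_mul]
  rw [← hinj.tsum_eq hsupp]
  refine tsum_congr fun p => ?_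
  obtain ⟨e, A⟩ := p
  unfold UT
  simp only
  rcases Nat.eq_zero_or_pos A with rfl | hA
  · simp
  -- the common factor
  set V : ℝ := Vk ((e : ℝ) ^ 2 * (A : ℝ) / ((n : ℝ) * m₁ * m₂ * Real.sqrt Δ)) /
    Real.sqrt ((e : ℝ) ^ 2 * A) with hV
  have hVL : (d : ℝ) * (Vk ((e : ℝ) ^ 2 * ((d ^ 2 * A : ℕ) : ℝ) /
        (((d * (n / s) : ℕ) : ℝ) * m₁ * m₂ * Real.sqrt ((Δ' : ℕ) : ℝ))) /
        Real.sqrt ((e : ℝ) ^ 2 * ((d ^ 2 * A : ℕ) : ℝ))) = V := by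
    have e1 : Real.sqrt ((Δ' : ℕ) : ℝ) = d * s * Real.sqrt Δ := by
      rw [hΔ']
      push_cast
      rw [Real.sqrt_mul (by positivity), Real.sqrt_sq (by positivity)]
    have e2 : Real.sqrt ((e : ℝ) ^ 2 * ((d ^ 2 * A : ℕ) : ℝ)) = d * Real.sqrt ((e : ℝ) ^ 2 * A) := by
      have e3 : (e : ℝ) ^ 2 * ((d ^ 2 * A : ℕ) : ℝ) = (d : ℝ) ^ 2 * ((e : ℝ) ^ 2 * A) := by
        push_cast
        ring
      rw [e3, Real.sqrt_mul (by positivity), Real.sqrt_sq hd'.le]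
    have e4 : (((d * (n / s) : ℕ) : ℝ)) * s = d * n := by
      obtain ⟨t, rfl⟩ := hsn
      rw [Nat.mul_div_cancel_left t (by omega)]
      push_cast
      ring
    have e5 : (e : ℝ) ^ 2 * ((d ^ 2 * A : ℕ) : ℝ) /
        (((d * (n / s) : ℕ) : ℝ) * m₁ * m₂ * Real.sqrt ((Δ' : ℕ) : ℝ)) =
        (e : ℝ) ^ 2 * (A : ℝ) / ((n : ℝ) * m₁ * m₂ * Real.sqrt Δ) := by
      rw [e1]
      have e6 : (((d * (n / s) : ℕ) : ℝ)) * m₁ * m₂ * (d * s * Real.sqrt Δ) =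
          (d : ℝ) ^ 2 * ((n : ℝ) * m₁ * m₂ * Real.sqrt Δ) := by
        calc (((d * (n / s) : ℕ) : ℝ)) * m₁ * m₂ * (d * s * Real.sqrt Δ) =
            ((((d * (n / s) : ℕ) : ℝ)) * s) * (m₁ * m₂ * d * Real.sqrt Δ) := by ring
          _ = _ := by rw [e4]; ring
      have e7 : (e : ℝ) ^ 2 * ((d ^ 2 * A : ℕ) : ℝ) = (d : ℝ) ^ 2 * ((e : ℝ) ^ 2 * A) := by
        push_cast
        ring
      rw [e6, e7, mul_div_mul_left _ _ (by positivity)]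
    rw [e5, e2, hV, ← mul_div_assoc, mul_div_mul_left _ _ hd'.ne']
  -- the functions
  set φ : ℤ → ℤ → ℝ := fun B C => w e A B C * (Nw m₁ m₂ A B C e : ℝ) with hφ
  have hφinv : ∀ B C : ℤ, φ (B + 2 * A) (A + B + C) = φ B C := by
    intro B C
    have h1 := (hNWS m₁ m₂ A e B C hA).2 1
    have e1 : B + 2 * (A : ℤ) * 1 = B + 2 * A := by ring
    have e2 : C + B * 1 + (A : ℤ) * 1 ^ 2 = A + B + C := by ring
    rw [e1, e2] at h1
    simp only [hφ]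
    rw [h1, hw.inv]
  set Z' : ℤ → ℝ := fun t => zf ((d ^ 2 * A : ℕ) : ℝ) t ((Δ' : ℕ) : ℝ) with hZ'
  have hZper : ∀ t, Z' (t + 2 * (d ^ 2 * A : ℕ)) = Z' t := by
    intro t
    simp only [hZ']
    have h1 := hQDV.2.2.2.1 ((d ^ 2 * A : ℕ) : ℝ) (t : ℝ) ((Δ' : ℕ) : ℝ)
      (by have : 0 < d ^ 2 * A := by positivity
          exact_mod_cast this)
    rw [← h1]
    congr 1
    push_cast
    ring
  have hs1 := hSL1 d A Δ φ (fun t => Z' ((d : ℤ) * s * t)) hd hA hφinv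
  have hs2 := hSL2 d s A Δ φ Z' hd hs hA hZper
  -- the right side
  have hright : ∑ B ∈ (Finset.range (2 * A)).filter (fun B => 4 * A ∣ B ^ 2 + Δ),
      ωR (qf3 Δ A B) e * Fgd (d * s) d Δ (qf3 Δ A B) =
      V * ∑ B ∈ (Finset.range (2 * (d ^ 2 * A))).filter (fun B =>
        4 * (d ^ 2 * A) ∣ B ^ 2 + (d * s) ^ 2 * Δ),
      ws d s (fun _ _ B C => φ B C) 0 (d ^ 2 * A) B
        (((B ^ 2 + (d * s) ^ 2 * Δ) / (4 * (d ^ 2 * A)) : ℕ) : ℤ) * Z' B := by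
    rw [← hs2, ← hs1, Finset.mul_sum]
    refine Finset.sum_congr rfl fun B _ => ?_
    have h1 : ωR (qf3 Δ A B) e = V * φ B (((B ^ 2 + Δ) / (4 * A) : ℕ) : ℤ) := by
      simp only [hωR, qf3, Int.toNat_natCast, Int.cast_natCast, hφ]
      rw [hV]
      ring
    have h2 : Fgd (d * s) d Δ (qf3 Δ A B) = ∑ j ∈ (Finset.range d).filter (fun j : ℕ =>
        IsCoprime (val ((A : ℤ), (B : ℤ), (((B ^ 2 + Δ) / (4 * A) : ℕ) : ℤ)) ((j : ℤ), 1)) (d : ℤ)),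
        Z' ((d : ℤ) * s * ((B : ℤ) + 2 * A * j)) := by
      unfold Fgd
      have e1 : qf3 Δ A B = ((A : ℤ), (B : ℤ), (((B ^ 2 + Δ) / (4 * A) : ℕ) : ℤ)) := rfl
      rw [e1]
      refine Finset.sum_congr rfl fun j _ => ?_
      simp only [hZ', hΔ']
      have e2 : d * s / d = s := Nat.mul_div_cancel_left s (by omega)
      rw [e2]
      push_cast
      rfl
    rw [h1, h2]
    ring
  rw [hright, Finset.mul_sum, Finset.mul_sum]
  refine Finset.sum_congr rfl fun B hB => ?_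
  -- the left side
  set C' : ℤ := (((B ^ 2 + (d * s) ^ 2 * Δ) / (4 * (d ^ 2 * A)) : ℕ) : ℤ) with hC'
  have hA' : 1 ≤ d ^ 2 * A := by
    have : 0 < d ^ 2 * A := by positivity
    exact this
  have hdA : d ^ 2 * A / d ^ 2 = A := Nat.mul_div_cancel_left A (by positivity)
  have hws : ws d s (fun _ _ B C => φ B C) 0 (d ^ 2 * A) B C' =
      ws d s w e (d ^ 2 * A) B C' * (Nw m₁ m₂ (d ^ 2 * A) B C' e : ℝ) := by
    unfold ws
    rw [if_pos (Dvd.intro _ rfl), if_pos (Dvd.intro _ rfl), Finset.sum_mul]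
    refine Finset.sum_congr rfl fun k _ => ?_
    by_cases hc : ((d * s : ℕ) : ℤ) ∣ (B : ℤ) + 2 * ((d ^ 2 * A : ℕ) : ℤ) * k ∧
        ((s ^ 2 : ℕ) : ℤ) ∣ C' + B * k + ((d ^ 2 * A : ℕ) : ℤ) * (k : ℤ) ^ 2 ∧
        IsCoprime ((C' + B * k + ((d ^ 2 * A : ℕ) : ℤ) * (k : ℤ) ^ 2) / (s ^ 2 : ℕ)) (d : ℤ)
    · rw [if_pos hc, if_pos hc]
      obtain ⟨⟨b, hb⟩, ⟨c, hcc⟩, -⟩ := hc
      have hds0 : ((d * s : ℕ) : ℤ) ≠ 0 := by
        have : d * s ≠ 0 := by positivity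
        exact_mod_cast this
      have hs0 : ((s ^ 2 : ℕ) : ℤ) ≠ 0 := by
        have : s ^ 2 ≠ 0 := by positivity
        exact_mod_cast this
      have hb' : ((B : ℤ) + 2 * ((d ^ 2 * A : ℕ) : ℤ) * k) / ((d * s : ℕ) : ℤ) = b := by
        rw [hb]
        exact Int.mul_ediv_cancel_left b hds0
      have hc' : (C' + B * k + ((d ^ 2 * A : ℕ) : ℤ) * (k : ℤ) ^ 2) / ((s ^ 2 : ℕ) : ℤ) = c := by
        rw [hcc]
        exact Int.mul_ediv_cancel_left c hs0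
      rw [hb', hc', hdA]
      simp only [hφ]
      have h1 := ((hNWS m₁ m₂ A e b c hA).1 d s hd hs hcop).1
      have h2 := (hNWS m₁ m₂ (d ^ 2 * A) e B C' hA').2 k
      rw [hb, hcc] at h2
      have e1 : ((d * s : ℕ) : ℤ) * b = (d : ℤ) * s * b := by push_cast; ring
      have e2 : ((s ^ 2 : ℕ) : ℤ) * c = (s : ℤ) ^ 2 * c := by push_cast; ring
      rw [e1, e2, h1] at h2
      rw [h2]
    · rw [if_neg hc, if_neg hc, zero_mul]
  have h1 : ωL (qf3 Δ' (d ^ 2 * A) B) e = (Vk ((e : ℝ) ^ 2 * ((d ^ 2 * A : ℕ) : ℝ) /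
        (((d * (n / s) : ℕ) : ℝ) * m₁ * m₂ * Real.sqrt ((Δ' : ℕ) : ℝ))) /
        Real.sqrt ((e : ℝ) ^ 2 * ((d ^ 2 * A : ℕ) : ℝ))) *
        (ws d s w e (d ^ 2 * A) B C' * (Nw m₁ m₂ (d ^ 2 * A) B C' e : ℝ)) := by
    simp only [hωL, qf3, Int.toNat_natCast, Int.cast_natCast]
    rw [← hC', mul_assoc]
  have h2 : FL (qf3 Δ' (d ^ 2 * A) B) = Z' B := by
    simp only [hFL, hZ', qf3, Int.cast_natCast]
  rw [h1, h2, ← hws, ← hVL]
  ring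

end Pool.Agent.H20.CFU
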